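import Pool.Agent.H7.GF.Final

/-!
# Monic polynomials with fixed constant term, degrees 3 to 7: number of those whose Galois group
is not the full symmetric group

Assembly of about ninety modules written by many seats: see `Pool/Agent/H7/GF/Final.lean`.
-/

set_option autoImplicit false

namespace Pool.Agent.Results.MP_cd65c5_nt.SmallDegrees

open Polynomial

/-- The family of the problem: monic integer polynomials of degree `n` with constant term `b`,
all other non-leading coefficients of absolute value at most `H`. -/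
def Family (n : ℕ) (b : ℤ) (H : ℝ) : Set ℤ[X] :=
  {f | f.Monic ∧ f.natDegree = n ∧ f.coeff 0 = b ∧ ∀ i, 1 ≤ i → i < n → |(f.coeff i : ℝ)| ≤ H}

/-- The Galois group of `f` over the rationals is the full symmetric group: `f` is irreducible over
the rationals and the Galois group of its splitting field (a group of permutations of the
`f.natDegree` distinct roots) has `f.natDegree.factorial` elements. -/
def FullGaloisGroup (f : ℤ[X]) : Prop :=
  Irreducible (f.map (Int.castRingHom ℚ)) ∧
    Nat.card (f.map (Int.castRingHom ℚ)).Gal = f.natDegree.factorial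

/-- Number of polynomials of the family whose Galois group is not the full symmetric group. -/
noncomputable def E (n : ℕ) (b : ℤ) (H : ℝ) : ℕ :=
  {f : ℤ[X] | f ∈ Family n b H ∧ ¬ FullGaloisGroup f}.ncard

/-- The family is finite, so that `E` is the actual number of elements. -/
lemma family_finite (n : ℕ) (b : ℤ) (H : ℝ) : (Family n b H).Finite := by
  classical
  set T : Finset (Fin n → ℤ) := Fintype.piFinset fun _ : Fin n =>
    Finset.Icc (-(max |b| ⌊H⌋)) (max |b| ⌊H⌋) with hT
  let φ : ℤ[X] → (Fin n → ℤ) := fun g i => g.coeff (i : ℕ)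
  have hmaps : Set.MapsTo φ (Family n b H) (T : Set (Fin n → ℤ)) := by
    rintro g ⟨-, -, h2, h3⟩
    rw [Finset.mem_coe, hT, Fintype.mem_piFinset]
    intro i
    rw [Finset.mem_Icc, ← abs_le]
    show |g.coeff (i : ℕ)| ≤ _
    rcases Nat.eq_zero_or_pos (i : ℕ) with hi | hi
    · rw [hi, h2]; exact le_max_left _ _
    · refine le_trans ?_ (le_max_right _ _)
      rw [Int.le_floor]
      have := h3 i hi i.2
      rwa [Int.cast_abs]
  have hinj : Set.InjOn φ (Family n b H) := by
    rintro g ⟨h1, h2, -⟩ g' ⟨h1', h2', -⟩ h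
    ext i
    rcases lt_trichotomy i n with hi | hi | hi
    · exact congrFun h ⟨i, hi⟩
    · have h3 : g.coeff g.natDegree = 1 := h1.coeff_natDegree
      have h4 : g'.coeff g'.natDegree = 1 := h1'.coeff_natDegree
      rw [h2] at h3
      rw [h2'] at h4
      rw [hi, h3, h4]
    · rw [coeff_eq_zero_of_natDegree_lt (by omega), coeff_eq_zero_of_natDegree_lt (by omega)]
  exact Set.Finite.of_injOn hmaps hinj T.finite_toSet

/-- `FullGaloisGroup` says that the Galois group induces all permutations of the complex roots. -/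
lemma fullGaloisGroup_iff_surjective (f : ℤ[X]) (hf : f.Monic)
    [Fact (((f.map (Int.castRingHom ℚ)).map (algebraMap ℚ ℂ)).Splits)] :
    FullGaloisGroup f ↔ Irreducible (f.map (Int.castRingHom ℚ)) ∧
    Function.Surjective (Polynomial.Gal.galActionHom (f.map (Int.castRingHom ℚ)) ℂ) := by
  rw [FullGaloisGroup]
  refine and_congr_right ?_
  intro h1
  have hinj := Polynomial.Gal.galActionHom_injective (f.map (Int.castRingHom ℚ)) ℂ
  have hp : Nat.card (Equiv.Perm ((f.map (Int.castRingHom ℚ)).rootSet ℂ)) =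
      f.natDegree.factorial := by
    rw [Nat.card_perm, Nat.card_eq_fintype_card,
      card_rootSet_eq_natDegree h1.separable (IsAlgClosed.splits _), hf.natDegree_map]
  constructor
  · intro h2
    exact ((Nat.bijective_iff_injective_and_card _).2 ⟨hinj, h2.trans hp.symm⟩).2
  · intro h2
    rw [← hp]
    exact Nat.card_eq_of_bijective _ ⟨hinj, h2⟩

lemma E_eq (n : ℕ) (b : ℤ) (H : ℝ) : (E n b H : ℝ) = H7.GF.E n b H := by
  rw [E, H7.GF.E]
  have : {f : ℤ[X] | f ∈ Family n b H ∧ ¬ FullGaloisGroup f} =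
      {f : ℤ[X] | f.Monic ∧ f.natDegree = n ∧ f.coeff 0 = b ∧
    (∀ i, 1 ≤ i → i < n → |(f.coeff i : ℝ)| ≤ H) ∧ ¬ H7.GF.Full f} := by
    ext f
    simp only [Family, Set.mem_ofPred_eq]
    constructor
    · rintro ⟨⟨h1, h2, h3, h4⟩, h5⟩
      exact ⟨h1, h2, h3, h4, h5⟩
    · rintro ⟨h1, h2, h3, h4, h5⟩
      exact ⟨⟨h1, h2, h3, h4⟩, h5⟩
  rw [this]

theorem theta_of_main (h : H7.GF.T_MAIN) : ∀ n : ℕ, 3 ≤ n → n ≤ 7 → ∀ b : ℤ, b ≠ 0 →
    (fun H : ℝ => (E n b H : ℝ)) =Θ[Filter.atTop] fun H : ℝ => H ^ (n - 2) := by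
  intro n hn3 hn7 b hb
  obtain ⟨c, K, H₀, hc, hH⟩ := h n hn3 hn7 b hb
  constructor
  · refine Asymptotics.IsBigO.of_bound K ?_
    filter_upwards [Filter.eventually_ge_atTop (max H₀ 1)] with H hH0
    have h1 := (hH H (le_trans (le_max_left _ _) hH0)).2
    have h2 : (0 : ℝ) ≤ H := by
      have := le_trans (le_max_right H₀ 1) hH0
      linarith
    rw [Real.norm_of_nonneg (Nat.cast_nonneg _), Real.norm_of_nonneg (by positivity), E_eq]
    exact h1
  · refine Asymptotics.IsBigO.of_bound (1 / c) ?_
    filter_upwards [Filter.eventually_ge_atTop (max H₀ 1)] with H hH0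
    have h1 := (hH H (le_trans (le_max_left _ _) hH0)).1
    have h2 : (0 : ℝ) ≤ H := by
      have := le_trans (le_max_right H₀ 1) hH0
      linarith
    rw [Real.norm_of_nonneg (by positivity), Real.norm_of_nonneg (Nat.cast_nonneg _), E_eq,
      one_div, ← div_eq_inv_mul, le_div_iff₀ hc, mul_comm]
    exact h1

/-- For every `n` with `3 ≤ n ≤ 7` and every integer `b ≠ 0`: the number of polynomials of the family
whose Galois group is not the full symmetric group is of exact order `H ^ (n - 2)`. -/
theorem result : ∀ n : ℕ, 3 ≤ n → n ≤ 7 → ∀ b : ℤ, b ≠ 0 →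
    (fun H : ℝ => (E n b H : ℝ)) =Θ[Filter.atTop] fun H : ℝ => H ^ (n - 2) :=
  theta_of_main H7.GF.final

end Pool.Agent.Results.MP_cd65c5_nt.SmallDegrees
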